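import Mathlib

/-!
# Abelian groups on the real line with an `F_σ` graph are never `ℵ₁`-free

Let `G` be an abelian group whose underlying set is `ℝ` and whose graph `{(x, y, z) : x +_G y = z}` is an `F_σ` subset
of `ℝ³`. By the theorem of Baire the operation is continuous on some open rectangle, and the intermediate value theorem
produces an element `g ≠ 0` of `G` which is divisible by all powers of two. So the countable subgroup which is generated
by the elements `g / 2 ^ n` is not free. In particular `G` is not `ℵ₁`-free, and the statement `S_Γ` of the problem for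
the class of the `F_σ` sets is a theorem of ZFC.
-/

set_option autoImplicit false

namespace Pool.Agent.Results.MP_e75763_lc.FSigmaClass

open Set Filter Topology

/-- The graph of a binary operation on `ℝ`. -/
def opGraph (F : ℝ → ℝ → ℝ) : Set (ℝ × ℝ × ℝ) := {p | F p.1 p.2.1 = p.2.2}

/-- `S` is an `F_σ` set, a countable union of closed sets. -/
def IsFSigma (S : Set (ℝ × ℝ × ℝ)) : Prop :=
  ∃ F : ℕ → Set (ℝ × ℝ × ℝ), (∀ n, IsClosed (F n)) ∧ S = ⋃ n, F n

/-- a function with a closed graph and with values in a compact set is continuous -/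
lemma cont_of_closed {X : Type*} [TopologicalSpace X] (P : Set X) (f : X → ℝ) (K : Set ℝ) (hK : IsCompact K)
    (hf : ∀ x ∈ P, f x ∈ K) (R : Set (X × ℝ)) (hR : IsClosed R) (hfR : ∀ x ∈ P, (x, f x) ∈ R)
    (hu : ∀ x ∈ P, ∀ y ∈ K, (x, y) ∈ R → y = f x) : ContinuousOn f P := by
  intro x hx
  refine hK.tendsto_nhds_of_unique_mapClusterPt ?_ ?_
  · exact eventually_nhdsWithin_of_forall hf
  · intro y hy hc
    refine hu x hx y hy ?_
    have h1 : MapClusterPt (x, y) (𝓝[P] x) (fun t => (t, f t)) := by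
      have h2 : Tendsto (fun t : X => t) (𝓝[P] x) (𝓝 x) := nhdsWithin_le_nhds
      rw [mapClusterPt_iff_frequently] at hc ⊢
      intro s hs
      rw [nhds_prod_eq, mem_prod_iff] at hs
      obtain ⟨U, hU, V, hV, hUV⟩ := hs
      have h3 := (hc V hV).and_eventually (h2 hU)
      exact h3.mono fun t ht => hUV ⟨ht.2, ht.1⟩
    have h4 : ∀ᶠ t in 𝓝[P] x, (t, f t) ∈ R := eventually_nhdsWithin_of_forall hfR
    have h5 : (x, y) ∈ closure R := by
      rw [mem_closure_iff_frequently]
      rw [mapClusterPt_iff_frequently] at h1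
      rw [Filter.frequently_iff]
      intro s hs
      obtain ⟨t, ht, ht2⟩ := ((h1 s hs).and_eventually h4).exists
      exact ⟨_, ht, ht2⟩
    rwa [hR.closure_eq] at h5

/-- the operation is continuous on some open rectangle -/
lemma exists_box (F : ℝ → ℝ → ℝ) (hG : IsFSigma (opGraph F)) :
    ∃ a b r : ℝ, 0 < r ∧ ContinuousOn (fun p : ℝ × ℝ => F p.1 p.2) (Icc (a - r) (a + r) ×ˢ Icc (b - r) (b + r)) := by
  obtain ⟨C, hC, hCU⟩ := hG
  -- compact pieces
  let K : ℕ × ℕ → Set (ℝ × ℝ × ℝ) := fun i => C i.1 ∩ Metric.closedBall 0 i.2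
  have hK : ∀ i, IsCompact (K i) := fun i => (isCompact_closedBall _ _).inter_left (hC _)
  let q : ℝ × ℝ × ℝ → ℝ × ℝ := fun p => (p.1, p.2.1)
  have hq : Continuous q := by fun_prop
  have hc : ∀ i, IsClosed (q '' K i) := fun i => ((hK i).image hq).isClosed
  have hU : ⋃ i, q '' K i = Set.univ := by
    rw [eq_univ_iff_forall]
    rintro ⟨x, y⟩
    have h1 : (x, y, F x y) ∈ opGraph F := rfl
    rw [hCU, mem_iUnion] at h1
    obtain ⟨n, hn⟩ := h1
    obtain ⟨m, hm⟩ := exists_nat_ge (dist (x, y, F x y) 0)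
    rw [mem_iUnion]
    exact ⟨(n, m), (x, y, F x y), ⟨hn, hm⟩, rfl⟩
  obtain ⟨i, p, hp⟩ := nonempty_interior_of_iUnion_of_closed hc hU
  obtain ⟨ε, hε, hball⟩ := Metric.isOpen_iff.1 isOpen_interior p hp
  refine ⟨p.1, p.2, ε / 2, by positivity, ?_⟩
  have hsub : Icc (p.1 - ε / 2) (p.1 + ε / 2) ×ˢ Icc (p.2 - ε / 2) (p.2 + ε / 2) ⊆ q '' K i := by
    rintro ⟨x, y⟩ ⟨hx, hy⟩
    apply interior_subset
    apply hball
    rw [Metric.mem_ball, Prod.dist_eq, max_lt_iff, Real.dist_eq, Real.dist_eq, abs_lt, abs_lt]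
    simp only [mem_Icc] at hx hy
    refine ⟨⟨?_, ?_⟩, ⟨?_, ?_⟩⟩ <;> linarith [hx.1, hx.2, hy.1, hy.2]
  refine ContinuousOn.mono ?_ hsub
  -- the graph over the compact piece
  let R : Set ((ℝ × ℝ) × ℝ) := {w | (w.1.1, w.1.2, w.2) ∈ K i}
  have hR : IsClosed R := (hK i).isClosed.preimage (by fun_prop)
  have hmem : ∀ x ∈ q '' K i, (x, F x.1 x.2) ∈ R := by
    rintro _ ⟨⟨x, y, z⟩, hw, rfl⟩
    have h1 : (x, y, z) ∈ opGraph F := by
      rw [hCU]
      exact mem_iUnion.2 ⟨_, hw.1⟩
    have h2 : F x y = z := h1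
    show (x, y, F x y) ∈ K i
    rw [h2]
    exact hw
  refine cont_of_closed (q '' K i) (fun p => F p.1 p.2) (Icc (-(i.2 : ℝ)) i.2) isCompact_Icc ?_ R hR hmem ?_
  · intro x hx
    have h1 := (hmem x hx).2
    rw [mem_closedBall_zero_iff, Prod.norm_def, max_le_iff, Prod.norm_def, max_le_iff, Real.norm_eq_abs,
      Real.norm_eq_abs, Real.norm_eq_abs] at h1
    exact abs_le.1 h1.2.2
  · rintro x _ y _ hxy
    have h1 : (x.1, x.2, y) ∈ opGraph F := by
      rw [hCU]
      exact mem_iUnion.2 ⟨_, hxy.1⟩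
    exact Eq.symm h1

/-- a function without zeros does not change its sign -/
lemma same_sign (f : ℝ → ℝ) (a c : ℝ) (hac : a ≤ c) (hf : ContinuousOn f (Icc a c)) (h0 : ∀ t ∈ Icc a c, f t ≠ 0) :
    0 < f a * f c := by
  by_contra h
  rw [not_lt] at h
  have h1 : (0 : ℝ) ∈ f '' Icc a c := by
    rcases le_total (f a) 0 with h2 | h2
    · rcases le_total 0 (f c) with h3 | h3
      · exact intermediate_value_Icc hac hf ⟨h2, h3⟩
      · have ha := h0 a ⟨le_rfl, hac⟩
        have hc := h0 c ⟨hac, le_rfl⟩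
        have : 0 < f a * f c := mul_pos_of_neg_of_neg (lt_of_le_of_ne h2 ha) (lt_of_le_of_ne h3 hc)
        linarith
    · rcases le_total (f c) 0 with h3 | h3
      · exact intermediate_value_Icc' hac hf ⟨h3, h2⟩
      · have ha := h0 a ⟨le_rfl, hac⟩
        have hc := h0 c ⟨hac, le_rfl⟩
        have : 0 < f a * f c := mul_pos (lt_of_le_of_ne h2 ha.symm) (lt_of_le_of_ne h3 hc.symm)
        linarith
  obtain ⟨t, ht, ht0⟩ := h1
  exact h0 t ht ht0

/-- the halving step -/
lemma exists_half (F : ℝ → ℝ → ℝ) (inj_left : ∀ x y z : ℝ, F x y = F x z → y = z)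
    (inj_right : ∀ x y z : ℝ, F x z = F y z → x = y) (a b r : ℝ) (hr : 0 < r)
    (hF : ContinuousOn (fun p : ℝ × ℝ => F p.1 p.2) (Icc (a - r) (a + r) ×ˢ Icc (b - r) (b + r))) :
    ∃ δ : ℝ, 0 < δ ∧ ∀ u : ℝ, a < u → u ≤ a + δ → ∃ t s : ℝ, a < t ∧ t < u ∧ F t s = F u b ∧
      F a s = F t b := by
  have hFx : ∀ x ∈ Icc (a - r) (a + r), ContinuousOn (fun y => F x y) (Icc (b - r) (b + r)) := by
    intro x hx
    exact hF.comp (f := fun y => (x, y)) (by fun_prop) (fun y hy => ⟨hx, hy⟩)
  have hFy : ∀ y ∈ Icc (b - r) (b + r), ContinuousOn (fun x => F x y) (Icc (a - r) (a + r)) := by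
    intro y hy
    exact hF.comp (f := fun x => (x, y)) (by fun_prop) (fun x hx => ⟨hx, hy⟩)
  have ha : a ∈ Icc (a - r) (a + r) := ⟨by linarith, by linarith⟩
  have hb : b ∈ Icc (b - r) (b + r) := ⟨by linarith, by linarith⟩
  have hbm : b - r ∈ Icc (b - r) (b + r) := ⟨by linarith, by linarith⟩
  have hbp : b + r ∈ Icc (b - r) (b + r) := ⟨by linarith, by linarith⟩
  -- `F a b` lies strictly between the two values
  have hmono := (hFx a ha).strictMonoOn_of_injOn_Icc' (by linarith) (fun y _ z _ h => inj_left a y z h)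
  have hbet : F a b ∈ Ioo (min (F a (b - r)) (F a (b + r))) (max (F a (b - r)) (F a (b + r))) := by
    rcases hmono with h | h
    · have h1 := h hbm hb (by linarith)
      have h2 := h hb hbp (by linarith)
      exact ⟨min_lt_of_left_lt h1, lt_max_of_lt_right h2⟩
    · have h1 := h hbm hb (by linarith)
      have h2 := h hb hbp (by linarith)
      exact ⟨min_lt_of_right_lt h2, lt_max_of_lt_left h1⟩
  have hev : ∀ᶠ t in 𝓝 a, F t b ∈ Ioo (min (F a (b - r)) (F a (b + r))) (max (F a (b - r)) (F a (b + r))) := by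
    have h1 : ContinuousAt (fun x => F x b) a := (hFy b hb).continuousAt (Icc_mem_nhds (by linarith) (by linarith))
    exact h1 (isOpen_Ioo.mem_nhds hbet)
  obtain ⟨δ, hδ, hball⟩ := Metric.eventually_nhds_iff.1 hev
  refine ⟨min (δ / 2) r, by positivity, fun u hau hu => ?_⟩
  have huδ : u ≤ a + δ / 2 := hu.trans (by linarith [min_le_left (δ / 2) r])
  have hur : u ≤ a + r := hu.trans (by linarith [min_le_right (δ / 2) r])
  have hsubI : Icc a u ⊆ Icc (a - r) (a + r) := Icc_subset_Icc (by linarith) hur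
  -- the transport function
  have hex : ∀ t ∈ Icc a u, ∃ s ∈ Icc (b - r) (b + r), F a s = F t b := by
    intro t ht
    have h1 : F t b ∈ Ioo (min (F a (b - r)) (F a (b + r))) (max (F a (b - r)) (F a (b + r))) := by
      apply hball
      rw [Real.dist_eq, abs_lt]
      constructor <;> linarith [ht.1, ht.2]
    have h2 : uIcc (F a (b - r)) (F a (b + r)) ⊆ (fun y => F a y) '' uIcc (b - r) (b + r) :=
      intermediate_value_uIcc (by rw [uIcc_of_le (by linarith)]; exact hFx a ha)
    obtain ⟨s, hs, hs2⟩ := h2 ⟨h1.1.le, h1.2.le⟩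
    rw [uIcc_of_le (by linarith)] at hs
    exact ⟨s, hs, hs2⟩
  choose! h hh1 hh2 using hex
  have hcont : ContinuousOn h (Icc a u) := by
    intro x hx
    refine (isCompact_Icc (a := b - r) (b := b + r)).tendsto_nhds_of_unique_mapClusterPt
      (eventually_nhdsWithin_of_forall hh1) ?_
    intro y hy hc
    -- the values `F a (h t)` tend to `F x b`, and `F a y` is a cluster point of them
    apply inj_left a
    rw [hh2 x hx]
    have h1 : Tendsto (fun t => F t b) (𝓝[Icc a u] x) (𝓝 (F x b)) := ((hFy b hb).mono hsubI) x hx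
    by_contra hne
    obtain ⟨U, V, hUo, hVo, hU, hV, hUV⟩ := t2_separation hne
    have h2 : ContinuousWithinAt (fun s => F a s) (Icc (b - r) (b + r)) y := hFx a ha y hy
    have h3 : ∀ᶠ s in 𝓝[Icc (b - r) (b + r)] y, F a s ∈ U := h2 (hUo.mem_nhds hU)
    rw [eventually_nhdsWithin_iff] at h3
    rw [mapClusterPt_iff_frequently] at hc
    have h6 : ∀ᶠ t in 𝓝[Icc a u] x, F t b ∈ V := h1 (hVo.mem_nhds hV)
    have h7 : ∀ᶠ t in 𝓝[Icc a u] x, t ∈ Icc a u := self_mem_nhdsWithin
    have h4 := (hc _ h3).and_eventually (h6.and h7)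
    obtain ⟨t, ht1, ht2, ht3⟩ := h4.exists
    have h5 : F a (h t) ∈ U := ht1 (hh1 t ht3)
    rw [hh2 t ht3] at h5
    exact Set.disjoint_left.1 hUV h5 ht2
  -- the intermediate value theorem
  have hauI : a ∈ Icc a u := ⟨le_rfl, hau.le⟩
  have huI : u ∈ Icc a u := ⟨hau.le, le_rfl⟩
  have hha : h a = b := inj_left a _ _ (hh2 a hauI)
  have hφ : ContinuousOn (fun t => F t (h t)) (Icc a u) := by
    refine hF.comp (f := fun t => (t, h t)) (continuousOn_id.prodMk hcont) ?_
    intro t ht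
    exact ⟨hsubI ht, hh1 t ht⟩
  have hne : h u ≠ b := by
    intro h1
    have h2 := hh2 u huI
    rw [h1] at h2
    exact hau.ne (inj_right _ _ _ h2)
  have hD : 0 < (F a (h u) - F a b) * (F u (h u) - F u b) :=
    same_sign (fun t => F t (h u) - F t b) a u hau.le
      (((hFy (h u) (hh1 u huI)).mono hsubI).sub ((hFy b hb).mono hsubI))
      (fun t _ h0 => hne (inj_left t _ _ (sub_eq_zero.1 h0)))
  rw [hh2 u huI] at hD
  have hIVT : F u b ∈ (fun t => F t (h t)) '' uIcc a u := by
    refine intermediate_value_uIcc (by rw [uIcc_of_le hau.le]; exact hφ) ?_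
    show F u b ∈ uIcc (F a (h a)) (F u (h u))
    rw [hha]
    rcases lt_or_ge 0 (F u b - F a b) with h1 | h1
    · have h2 : 0 < F u (h u) - F u b := by
        by_contra h3
        rw [not_lt] at h3
        nlinarith
      rw [uIcc_of_le (by linarith)]
      exact ⟨by linarith, by linarith⟩
    · have h2 : F u (h u) - F u b ≤ 0 := by
        by_contra h3
        rw [not_le] at h3
        nlinarith
      rw [uIcc_of_ge (by linarith)]
      exact ⟨by linarith, by linarith⟩
  obtain ⟨t, ht, htφ⟩ := hIVT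
  rw [uIcc_of_le hau.le] at ht
  have htφ' : F t (h t) = F u b := htφ
  refine ⟨t, h t, lt_of_le_of_ne ht.1 ?_, lt_of_le_of_ne ht.2 ?_, htφ', hh2 t ht⟩
  · rintro rfl
    rw [hha] at htφ'
    exact hau.ne (inj_right _ _ _ htφ')
  · rintro rfl
    exact hne (inj_left _ _ _ htφ')

/-- the sequence of the halvings -/
lemma exists_halvings (F : ℝ → ℝ → ℝ) (hG : IsFSigma (opGraph F)) (inj_left : ∀ x y z : ℝ, F x y = F x z → y = z)
    (inj_right : ∀ x y z : ℝ, F x z = F y z → x = y) :
    ∃ (a b : ℝ) (t s : ℕ → ℝ), t 0 ≠ a ∧ ∀ n, F (t (n + 1)) (s n) = F (t n) b ∧ F a (s n) = F (t (n + 1)) b := by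
  obtain ⟨a, b, r, hr, hF⟩ := exists_box F hG
  obtain ⟨δ, hδ, hstep⟩ := exists_half F inj_left inj_right a b r hr hF
  choose! T S hT1 hT2 hT3 hT4 using hstep
  let t : ℕ → ℝ := fun n => Nat.rec (a + δ) (fun _ u => T u) n
  have ht0 : t 0 = a + δ := rfl
  have hts : ∀ n, t (n + 1) = T (t n) := fun n => rfl
  have hrange : ∀ n, a < t n ∧ t n ≤ a + δ := by
    intro n
    induction n with
    | zero => rw [ht0]; exact ⟨by linarith, le_rfl⟩
    | succ n ih =>
      rw [hts]
      exact ⟨hT1 _ ih.1 ih.2, (hT2 _ ih.1 ih.2).le.trans ih.2⟩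
  refine ⟨a, b, t, fun n => S (t n), (hrange 0).1.ne', fun n => ⟨?_, ?_⟩⟩
  · exact hT3 _ (hrange n).1 (hrange n).2
  · exact hT4 _ (hrange n).1 (hrange n).2

/-- a nonzero element of a free abelian group is not divisible by all powers of two -/
lemma free_not_div {H : Type} [AddCommGroup H] (hfree : Module.Free ℤ H) (g : ℕ → H)
    (h2 : ∀ n, g n = (2 : ℤ) • g (n + 1)) : g 0 = 0 := by
  classical
  have h3 : ∀ n, g 0 = (2 ^ n : ℤ) • g n := by
    intro n
    induction n with
    | zero => simp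
    | succ n ih =>
      rw [ih, h2 n, pow_succ, mul_smul]
  let B := Module.Free.chooseBasis ℤ H
  apply B.repr.injective
  rw [map_zero]
  ext i
  rw [Finsupp.zero_apply]
  have h4 : ∀ n : ℕ, (2 ^ n : ℤ) ∣ B.repr (g 0) i := by
    intro n
    rw [h3 n, map_smul, Finsupp.smul_apply, smul_eq_mul]
    exact dvd_mul_right _ _
  by_contra hne
  have h5 := Int.le_of_dvd (abs_pos.2 hne) ((dvd_abs _ _).2 (h4 (B.repr (g 0) i).natAbs))
  have h6 : ((B.repr (g 0) i).natAbs : ℤ) < 2 ^ (B.repr (g 0) i).natAbs := by exact_mod_cast Nat.lt_two_pow_self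
  rw [Int.abs_eq_natAbs] at h5
  linarith

/-- The group `G` on the set of the real numbers, as a type which carries this group operation (and not the usual
addition). -/
def Carrier (_ : AddCommGroup ℝ) : Type := ℝ

/-- The operation on `Carrier G` is the one of `G`. -/
instance instCarrier (G : AddCommGroup ℝ) : AddCommGroup (Carrier G) := G

/-- The graph of the operation of `G`. -/
def graph (G : AddCommGroup ℝ) : Set (ℝ × ℝ × ℝ) := {p | G.add p.1 p.2.1 = p.2.2}

/-- Every subgroup of `G` of cardinality less than `κ` is free. -/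
def KappaFree (κ : Cardinal.{0}) (G : AddCommGroup ℝ) : Prop :=
  ∀ H : AddSubgroup (Carrier G), Cardinal.mk H < κ → Module.Free ℤ H

/-- a nonzero element which is divisible by all powers of two -/
lemma exists_divisible (G : AddCommGroup ℝ) (hG : IsFSigma (graph G)) :
    ∃ g : ℕ → Carrier G, g 0 ≠ 0 ∧ ∀ n, g n = g (n + 1) + g (n + 1) := by
  have hl : ∀ x y z : Carrier G, x + y = x + z → y = z := fun _ _ _ h => add_left_cancel h
  have hr : ∀ x y z : Carrier G, x + z = y + z → x = y := fun _ _ _ h => add_right_cancel h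
  obtain ⟨a, b, t, s, h0, h1⟩ := exists_halvings (fun x y => G.add x y) hG hl hr
  let a' : Carrier G := a
  let b' : Carrier G := b
  let t' : ℕ → Carrier G := t
  let s' : ℕ → Carrier G := s
  have h0' : t' 0 ≠ a' := h0
  have h1' : ∀ n, t' (n + 1) + s' n = t' n + b' ∧ a' + s' n = t' (n + 1) + b' := h1
  refine ⟨fun n => t' n - a', sub_ne_zero.2 h0', fun n => ?_⟩
  show t' n - a' = (t' (n + 1) - a') + (t' (n + 1) - a')
  obtain ⟨h2, h3⟩ := h1' n
  have h4 : t' n = t' (n + 1) + s' n - b' := by rw [h2]; abel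
  have h5 : s' n = t' (n + 1) + b' - a' := by rw [← h3]; abel
  rw [h4, h5]
  abel

/-- **Theorem.** Let `G` be an abelian group with underlying set `ℝ` whose graph is an `F_σ` subset of `ℝ³`. (1) There is
a sequence `g_n` in `G` with `g_0 ≠ 0` and `g_n = g_(n+1) + g_(n+1)` (in the sense of `G`). (2) Some countable subgroup of
`G` is not free, so that (3) `G` is not `κ`-free for any uncountable `κ`. (4) The statement `S_Γ` for the class of the
`F_σ` sets: if `G` is `ℵ_ω`-free, then it is free. -/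
theorem result (G : AddCommGroup ℝ) (hG : IsFSigma (graph G)) :
    (∃ g : ℕ → Carrier G, g 0 ≠ 0 ∧ ∀ n, g n = g (n + 1) + g (n + 1)) ∧
    (∃ H : AddSubgroup (Carrier G), Countable H ∧ ¬ Module.Free ℤ H) ∧
    (∀ κ : Cardinal.{0}, Cardinal.aleph0 < κ → ¬ KappaFree κ G) ∧
    (KappaFree (Cardinal.aleph Ordinal.omega0) G → Module.Free ℤ (Carrier G)) := by
  obtain ⟨g, hg0, hg⟩ := exists_divisible G hG
  have hg' : ∀ n, g n = (2 : ℤ) • g (n + 1) := fun n => by rw [two_smul]; exact hg n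
  have hpow : ∀ n k, g n = (2 ^ k : ℤ) • g (n + k) := by
    intro n k
    induction k with
    | zero => simp
    | succ k ih => rw [ih, hg' (n + k), pow_succ, mul_smul, add_assoc]
  have hH : ∃ H : AddSubgroup (Carrier G), Countable H ∧ ¬ Module.Free ℤ H := by
    let H : AddSubgroup (Carrier G) :=
      { carrier := Set.range (fun p : ℤ × ℕ => p.1 • g p.2)
        zero_mem' := ⟨(0, 0), by simp⟩
        add_mem' := by
          rintro _ _ ⟨⟨k, n⟩, rfl⟩ ⟨⟨l, m⟩, rfl⟩
          refine ⟨(k * 2 ^ m + l * 2 ^ n, n + m), ?_⟩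
          show (k * 2 ^ m + l * 2 ^ n) • g (n + m) = k • g n + l • g m
          rw [add_smul, mul_smul, mul_smul, ← hpow n m, add_comm n m, ← hpow m n]
        neg_mem' := by
          rintro _ ⟨⟨k, n⟩, rfl⟩
          exact ⟨(-k, n), neg_smul _ _⟩ }
    refine ⟨H, ?_, ?_⟩
    · exact (Set.countable_range (fun p : ℤ × ℕ => p.1 • g p.2)).to_subtype
    · intro hfree
      let g' : ℕ → H := fun n => ⟨g n, ⟨(1, n), one_smul _ _⟩⟩
      have h1 := free_not_div hfree g' (fun n => Subtype.ext (hg' n))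
      exact hg0 (congrArg Subtype.val h1)
  have hk : ∀ κ : Cardinal.{0}, Cardinal.aleph0 < κ → ¬ KappaFree κ G := by
    intro κ hκ hfree
    obtain ⟨H, hH1, hH2⟩ := hH
    exact hH2 (hfree H (lt_of_le_of_lt (Cardinal.mk_le_aleph0_iff.2 hH1) hκ))
  refine ⟨⟨g, hg0, hg⟩, hH, hk, fun h => ?_⟩
  exact absurd h (hk _ (by
    rw [← Cardinal.aleph_zero]
    exact Cardinal.aleph_lt_aleph.2 Ordinal.omega0_pos))

end Pool.Agent.Results.MP_e75763_lc.FSigmaClass
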